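import Pool.Agent.helper12.OB.SpecC

set_option autoImplicit false

namespace Pool.Agent.OB

open Pool.Agent.helper58.DC Pool.Agent.DI Pool.Agent.GR

open Classical in
private theorem TEX_mem {α R : Type} [Fintype α] [AddCommMonoid R] (S : Set α) (f : α → R) :
    ∑ᶠ x ∈ S, f x = ∑ x, if x ∈ S then f x else 0 := by
  rw [finsum_eq_sum_of_fintype]
  exact Finset.sum_congr rfl fun x _ => finsum_eq_if

theorem TEX (hKRW : KRW_stmt) (hTUP : TUP_stmt) : TEX_stmt := by
  classical
  intro G _ _ p _ hp g₁ g₂ h₁ h₂ n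
  have : Fintype G := Fintype.ofFinite G
  have : Fintype (Subgroup G) := Fintype.ofFinite _
  unfold To
  set F : (G × G) × (Fin n → G) × G → ℂ := fun x =>
    g₁ x.2.2 * g₂ (x.1.1 * x.1.2 * x.1.1⁻¹ * x.1.2⁻¹ * qq x.2.1 * x.2.2)⁻¹ *
      (∏ j, tp p (x.2.1 j)) with hF
  set K : (G × G) × (Fin n → G) × G → Subgroup G := fun x =>
    Subgroup.closure ({x.1.1, x.1.2, x.2.2} ∪ Set.range x.2.1) with hK
  have hW : ∀ x, (W p (K x) : ℂ) = ∑ C : Finset (Subgroup G),
      if IsRadical p C then (-1) ^ (C.card + 1) * (if K x ≤ nrm C then (1 : ℂ) else 0) else 0 := by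
    intro x
    rw [hKRW G p hp (K x), TEX_mem, Int.cast_sum]
    refine Finset.sum_congr rfl fun C _ => ?_
    by_cases hC : IsRadical p C
    · by_cases hN : K x ≤ nrm C
      · rw [if_pos (show C ∈ {C : Finset (Subgroup G) | IsRadical p C ∧ K x ≤ nrm C} from ⟨hC, hN⟩),
          if_pos hC, if_pos hN, mul_one]
        push_cast
        rfl
      · rw [if_neg (show ¬ C ∈ {C : Finset (Subgroup G) | IsRadical p C ∧ K x ≤ nrm C} from
          fun h => hN h.2), if_pos hC, if_neg hN, mul_zero, Int.cast_zero]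
    · rw [if_neg (show ¬ C ∈ {C : Finset (Subgroup G) | IsRadical p C ∧ K x ≤ nrm C} from
          fun h => hC h.1), if_neg hC, Int.cast_zero]
  have hU : ∀ C : Finset (Subgroup G), ∑ x, F x * (if K x ≤ nrm C then (1 : ℂ) else 0) =
      (Nat.card (nrm C) : ℂ) * ∑ᶠ ψ ∈ IrrOn (nrm C), cc ψ g₁ * cc ψ g₂ * (cc ψ (tp p)) ^ n := by
    intro C
    rw [← hTUP G p (nrm C) g₁ g₂ h₁ h₂ n, TEX_mem]
    refine Finset.sum_congr rfl fun x _ => ?_
    by_cases hN : K x ≤ nrm C
    · rw [if_pos hN, mul_one]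
      exact (if_pos hN).symm
    · rw [if_neg hN, mul_zero]
      exact (if_neg hN).symm
  have hL : ∑ᶠ x : (G × G) × (Fin n → G) × G, F x * (W p (K x) : ℂ) =
      ∑ C : Finset (Subgroup G), if IsRadical p C then (-1) ^ (C.card + 1) *
        ((Nat.card (nrm C) : ℂ) * ∑ᶠ ψ ∈ IrrOn (nrm C), cc ψ g₁ * cc ψ g₂ * (cc ψ (tp p)) ^ n)
        else 0 := by
    rw [finsum_eq_sum_of_fintype]
    have h3 : ∀ x, F x * (W p (K x) : ℂ) = ∑ C : Finset (Subgroup G),
        if IsRadical p C then (-1) ^ (C.card + 1) * (F x * (if K x ≤ nrm C then (1 : ℂ) else 0)) else 0 := by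
      intro x
      rw [hW x, Finset.mul_sum]
      refine Finset.sum_congr rfl fun C _ => ?_
      by_cases hC : IsRadical p C
      · rw [if_pos hC, if_pos hC]
        ring
      · rw [if_neg hC, if_neg hC, mul_zero]
    rw [Finset.sum_congr rfl fun x _ => h3 x, Finset.sum_comm]
    refine Finset.sum_congr rfl fun C _ => ?_
    by_cases hC : IsRadical p C
    · rw [if_pos hC, ← hU C, Finset.mul_sum]
      exact Finset.sum_congr rfl fun x _ => if_pos hC
    · rw [if_neg hC]
      exact Finset.sum_eq_zero fun x _ => if_neg hC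
  refine hL.trans ?_
  rw [TEX_mem]
  refine Finset.sum_congr rfl fun C _ => ?_
  by_cases hC : IsRadical p C
  · rw [if_pos hC]
    exact (if_pos (show C ∈ {C : Finset (Subgroup G) | IsRadical p C} from hC)).symm
  · rw [if_neg hC]
    exact (if_neg (show ¬ C ∈ {C : Finset (Subgroup G) | IsRadical p C} from hC)).symm

end Pool.Agent.OB
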